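import Pool.Agent.Helper42.SLR.Defs

/-! # Project SL, module RB, packet HB: bound of the houses of the entries -/

namespace Pool.Agent.Helper55.SLR

open Pool.Agent.Helper51.SigLeo Pool.Agent.Helper51.SixExp Pool.Agent.Helper17.SL
  Pool.Agent.Helper42.SLR NumberField Module

universe w x y

theorem le_sum2 {α β : Type*} [Fintype α] [Fintype β] (F : α → β → ℝ) (hF : ∀ a b, 0 ≤ F a b)
    (a : α) (b : β) : F a b ≤ ∑ a, ∑ b, F a b :=
  (Finset.single_le_sum (f := fun b => F a b) (fun b _ => hF a b) (Finset.mem_univ b)).trans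
    (Finset.single_le_sum (f := fun a => ∑ b, F a b)
      (fun a _ => Finset.sum_nonneg fun b _ => hF a b) (Finset.mem_univ a))

section
variable {L : Type*} [Field L] [NumberField L]

theorem house_cpow (x : 𝓞 L) (n : ℕ) : house ((x ^ n : 𝓞 L) : L) ≤ house (x : L) ^ n := by
  have e : ((x ^ n : 𝓞 L) : L) = (x : L) ^ n := map_pow (algebraMap (𝓞 L) L) x n
  rw [e]
  exact house_pow_le _ _

theorem house_cmul (x y : 𝓞 L) : house ((x * y : 𝓞 L) : L) ≤ house (x : L) * house (y : L) := by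
  have e : ((x * y : 𝓞 L) : L) = (x : L) * (y : L) := map_mul (algebraMap (𝓞 L) L) x y
  rw [e]
  exact house_mul_le _ _

theorem house_cprod {ι : Type*} (s : Finset ι) (f : ι → 𝓞 L) :
    house ((∏ i ∈ s, f i : 𝓞 L) : L) ≤ ∏ i ∈ s, house (f i : L) := by
  have e : ((∏ i ∈ s, f i : 𝓞 L) : L) = ∏ i ∈ s, (f i : L) :=
    map_prod (algebraMap (𝓞 L) L) _ _
  rw [e]
  exact house_prod_le' _ _

theorem house_csum {ι : Type*} (s : Finset ι) (f : ι → 𝓞 L) :
    house ((∑ i ∈ s, f i : 𝓞 L) : L) ≤ ∑ i ∈ s, house (f i : L) := by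
  have e : ((∑ i ∈ s, f i : 𝓞 L) : L) = ∑ i ∈ s, (f i : L) :=
    map_sum (algebraMap (𝓞 L) L) _ _
  rw [e]
  exact house_sum_le_sum_house _ _

theorem house_zpow {h : ℝ} (y : (𝓞 L)ˣ) (h1 : house ((y : 𝓞 L) : L) ≤ h)
    (h2 : house (((y⁻¹ : (𝓞 L)ˣ) : 𝓞 L) : L) ≤ h) (n : ℤ) :
    house (((y ^ n : (𝓞 L)ˣ) : 𝓞 L) : L) ≤ h ^ n.natAbs := by
  have key : ∀ (z : (𝓞 L)ˣ) (m : ℕ), house ((z : 𝓞 L) : L) ≤ h →
      house (((z ^ m : (𝓞 L)ˣ) : 𝓞 L) : L) ≤ h ^ m := by
    intro z m hz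
    rw [Units.val_pow_eq_pow_val]
    exact (house_cpow _ _).trans (pow_le_pow_left₀ (house_nonneg _) hz m)
  obtain ⟨m, rfl | rfl⟩ := Int.eq_nat_or_neg n
  · rw [zpow_natCast, Int.natAbs_natCast]
    exact key y m h1
  · rw [zpow_neg, zpow_natCast, ← inv_pow, Int.natAbs_neg, Int.natAbs_natCast]
    exact key y⁻¹ m h2

end

theorem pow_le_exp {G V : ℝ} (hG : 1 ≤ G) (hV : Real.log G ≤ V) (n : ℕ) :
    G ^ n ≤ Real.exp (n * V) := by
  have h0 : 0 < G := by linarith
  calc G ^ n = Real.exp (n * Real.log G) := by rw [Real.exp_nat_mul, Real.exp_log h0]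
    _ ≤ Real.exp (n * V) :=
      Real.exp_le_exp.2 (mul_le_mul_of_nonneg_left hV (Nat.cast_nonneg _))

theorem hb : S_HB.{w, x, y} := by
  intro L _ _ g I J _ _ x y
  classical
  obtain ⟨h, h1, hx, hy, hy'⟩ : ∃ h : ℝ, 1 ≤ h ∧ (∀ q i, house (x q i : L) ≤ h) ∧
      (∀ q j, house (((y q j : (𝓞 L)ˣ) : 𝓞 L) : L) ≤ h) ∧
      (∀ q j, house ((((y q j)⁻¹ : (𝓞 L)ˣ) : 𝓞 L) : L) ≤ h) := by
    have e1 : 0 ≤ ∑ q, ∑ i, house (x q i : L) :=
      Finset.sum_nonneg fun q _ => Finset.sum_nonneg fun i _ => house_nonneg _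
    have e2 : 0 ≤ ∑ q, ∑ j, house (((y q j : (𝓞 L)ˣ) : 𝓞 L) : L) :=
      Finset.sum_nonneg fun q _ => Finset.sum_nonneg fun i _ => house_nonneg _
    have e3 : 0 ≤ ∑ q, ∑ j, house ((((y q j)⁻¹ : (𝓞 L)ˣ) : 𝓞 L) : L) :=
      Finset.sum_nonneg fun q _ => Finset.sum_nonneg fun i _ => house_nonneg _
    refine ⟨1 + ∑ q, ∑ i, house (x q i : L) +
      ∑ q, ∑ j, house (((y q j : (𝓞 L)ˣ) : 𝓞 L) : L) +
      ∑ q, ∑ j, house ((((y q j)⁻¹ : (𝓞 L)ˣ) : 𝓞 L) : L), by linarith, fun q i => ?_,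
      fun q j => ?_, fun q j => ?_⟩
    · have := le_sum2 (fun q i => house (x q i : L)) (fun _ _ => house_nonneg _) q i
      linarith
    · have := le_sum2 (fun q j => house (((y q j : (𝓞 L)ˣ) : 𝓞 L) : L))
        (fun _ _ => house_nonneg _) q j
      linarith
    · have := le_sum2 (fun q j => house ((((y q j)⁻¹ : (𝓞 L)ˣ) : 𝓞 L) : L))
        (fun _ _ => house_nonneg _) q j
      linarith
  have h0 : 0 ≤ h := by linarith
  set G : ℝ := (g + 1) * h with hGdef
  have hg0 : (0 : ℝ) ≤ g := Nat.cast_nonneg g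
  have hG : 1 ≤ G := by
    rw [hGdef]; nlinarith
  have hlG : 0 ≤ Real.log G := Real.log_nonneg hG
  have hlh : 0 ≤ Real.log h := Real.log_nonneg h1
  have hl2 : 0 < Real.log 2 := Real.log_pos (by norm_num)
  set c₁ : ℝ := Real.log G / Real.log 2 + 1 with hc₁
  set c₂ : ℝ := g * (Real.log h / Real.log 2) with hc₂
  have hc₁0 : 0 ≤ c₁ := by positivity
  have hc₂0 : 0 ≤ c₂ := by positivity
  refine ⟨Fintype.card I * c₁ + Fintype.card J * c₂ + 1, by positivity, ?_⟩
  intro U T D S hU hT hD hSD a t s ha ht hs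
  have hU2 : (2 : ℝ) ≤ U := by exact_mod_cast hU
  have hU0 : (0 : ℝ) < U := by linarith
  have hlU : Real.log 2 ≤ Real.log U := Real.log_le_log (by norm_num) hU2
  have hlU0 : 0 < Real.log U := by linarith
  -- the first factor
  have hA : ∀ i, house (((∑ q, a q • x q i) ^ t i : 𝓞 L) : L) ≤
      Real.exp (c₁ * (U * Real.log U)) := by
    intro i
    have e1 : house ((∑ q, a q • x q i : 𝓞 L) : L) ≤ G * U := by
      refine (house_csum _ _).trans ?_
      have e2 : ∀ q ∈ Finset.univ, house ((a q • x q i : 𝓞 L) : L) ≤ U * h := by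
        intro q _
        rw [zsmul_eq_mul]
        refine (house_cmul _ _).trans ?_
        refine mul_le_mul ?_ (hx q i) (house_nonneg _) hU0.le
        have e5 : (((a q : ℤ) : 𝓞 L) : L) = ((a q : ℤ) : L) := map_intCast (algebraMap (𝓞 L) L) _
        rw [e5, house_intCast]
        have : |a q| ≤ (U : ℤ) := (ha q).trans (by exact_mod_cast hD)
        exact_mod_cast this
      refine (Finset.sum_le_sum e2).trans ?_
      rw [Finset.sum_const, Finset.card_univ, Fintype.card_fin, nsmul_eq_mul, hGdef]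
      nlinarith [mul_nonneg hU0.le h0]
    have hGU : 1 ≤ G * U := by nlinarith
    have e3 : house (((∑ q, a q • x q i) ^ t i : 𝓞 L) : L) ≤ (G * U) ^ U := by
      refine (house_cpow _ _).trans ?_
      exact (pow_le_pow_left₀ (house_nonneg _) e1 _).trans
        (pow_le_pow_right₀ hGU ((ht i).trans hT))
    refine e3.trans ?_
    have e4 : Real.log (G * U) ≤ c₁ * Real.log U := by
      rw [Real.log_mul (by linarith) hU0.ne', hc₁, add_mul, one_mul]
      have : Real.log G ≤ Real.log G / Real.log 2 * Real.log U := by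
        rw [div_mul_eq_mul_div, le_div_iff₀ hl2]
        exact mul_le_mul_of_nonneg_left hlU hlG
      linarith
    refine (pow_le_exp hGU e4 U).trans (le_of_eq ?_)
    congr 1
    ring
  -- the second factor
  have hB : ∀ j, house ((((∏ q, y q j ^ a q : (𝓞 L)ˣ) : 𝓞 L) ^ s j : 𝓞 L) : L) ≤
      Real.exp (c₂ * (U * Real.log U)) := by
    intro j
    have e1 : house (((∏ q, y q j ^ a q : (𝓞 L)ˣ) : 𝓞 L) : L) ≤ h ^ (g * D) := by
      rw [Units.coe_prod]
      refine (house_cprod _ _).trans ?_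
      have e2 : ∀ q ∈ Finset.univ, house (((y q j ^ a q : (𝓞 L)ˣ) : 𝓞 L) : L) ≤
          h ^ D := by
        intro q _
        refine (house_zpow (y q j) (hy q j) (hy' q j) (a q)).trans ?_
        refine pow_le_pow_right₀ h1 ?_
        have := ha q
        rw [Int.abs_eq_natAbs] at this
        exact_mod_cast this
      refine (Finset.prod_le_prod (fun _ _ => house_nonneg _) e2).trans (le_of_eq ?_)
      rw [Finset.prod_const, Finset.card_univ, Fintype.card_fin, ← pow_mul]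
      congr 1
      ring
    have e3 : house ((((∏ q, y q j ^ a q : (𝓞 L)ˣ) : 𝓞 L) ^ s j : 𝓞 L) : L) ≤ h ^ (g * U) := by
      refine (house_cpow _ _).trans ((pow_le_pow_left₀ (house_nonneg _) e1 _).trans ?_)
      rw [← pow_mul]
      refine pow_le_pow_right₀ h1 ?_
      calc g * D * s j ≤ g * D * S := Nat.mul_le_mul_left _ (hs j)
        _ = g * (S * D) := by ring
        _ ≤ g * U := Nat.mul_le_mul_left _ hSD
    refine e3.trans ?_
    refine (pow_le_exp h1 (V := Real.log h / Real.log 2 * Real.log U) ?_ (g * U)).trans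
      (le_of_eq ?_)
    · rw [div_mul_eq_mul_div, le_div_iff₀ hl2]
      exact mul_le_mul_of_nonneg_left hlU hlh
    · congr 1
      rw [hc₂]
      push_cast
      ring
  -- the product
  have hE : house (((∏ i, (∑ q, a q • x q i) ^ t i) *
      ∏ j, ((∏ q, y q j ^ a q : (𝓞 L)ˣ) : 𝓞 L) ^ s j : 𝓞 L) : L) ≤
      Real.exp (c₁ * (U * Real.log U)) ^ Fintype.card I *
        Real.exp (c₂ * (U * Real.log U)) ^ Fintype.card J := by
    refine (house_cmul _ _).trans ?_
    refine mul_le_mul ?_ ?_ (house_nonneg _) (by positivity)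
    · refine (house_cprod _ _).trans ?_
      refine (Finset.prod_le_prod (fun _ _ => house_nonneg _) (fun i _ => hA i)).trans
        (le_of_eq ?_)
      rw [Finset.prod_const, Finset.card_univ]
    · refine (house_cprod _ _).trans ?_
      refine (Finset.prod_le_prod (fun _ _ => house_nonneg _) (fun j _ => hB j)).trans
        (le_of_eq ?_)
      rw [Finset.prod_const, Finset.card_univ]
  refine hE.trans ?_
  rw [← Real.exp_nat_mul, ← Real.exp_nat_mul, ← Real.exp_add]
  apply Real.exp_le_exp.2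
  have : 0 ≤ U * Real.log U := by positivity
  nlinarith

end Pool.Agent.Helper55.SLR
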